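import Mathlib
import Pool.Agent.Helper18.UW.GoalsA

/-!
# Project UW: packet BX (exact filling of thin trapezoids)
-/

set_option autoImplicit false

namespace Pool.Agent.Helper9.UW

open Finset
open Pool.Agent.Lead.Sh
open Pool.Agent.Helper18.EW
open Pool.Agent.Helper18.UW
open Helper18.Np (fm)

lemma mem_triZ (d h : ℕ) (x : ℕ × ℕ) : x ∈ triZ d h ↔ x.1 + x.2 ≤ d ∧ x.2 < h := by
  unfold triZ
  rw [Finset.mem_filter, mem_triD]
  simp

lemma row_card (d h y : ℕ) (hy : y < h) (_hd : h ≤ d + 1) :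
    ((triZ d h).filter (fun x => x.2 = y)).card = d + 1 - y := by
  have : (triZ d h).filter (fun x => x.2 = y) = (range (d + 1 - y)).image (fun i => (i, y)) := by
    ext ⟨i, j⟩
    simp only [Finset.mem_filter, mem_triZ, Finset.mem_image, Finset.mem_range, Prod.mk.injEq]
    constructor
    · rintro ⟨⟨h1, h2⟩, rfl⟩
      exact ⟨i, by omega, rfl, rfl⟩
    · rintro ⟨a, h1, rfl, rfl⟩
      exact ⟨⟨by omega, hy⟩, rfl⟩
  rw [this, Finset.card_image_of_injective _ (fun a b hab => (Prod.mk.inj hab).1), card_range]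

lemma tri_card (d h : ℕ) (hd : h ≤ d + 1) :
    ∑ y ∈ range h, (d + 2 - h + y) = (triZ d h).card := by
  have h1 : (triZ d h).card = ∑ y ∈ range h, ((triZ d h).filter (fun x => x.2 = y)).card := by
    refine Finset.card_eq_sum_card_fiberwise (f := fun x : ℕ × ℕ => x.2) (t := range h) ?_
    intro x hx
    have hx' := (mem_triZ d h x).1 (Finset.mem_coe.1 hx)
    exact Finset.mem_coe.2 (Finset.mem_range.2 hx'.2)
  rw [h1, ← Finset.sum_range_reflect]
  refine Finset.sum_congr rfl fun y hy => ?_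
  rw [Finset.mem_range] at hy
  rw [row_card d h y hy hd]
  omega

theorem goalBX : GoalBX := by
  intro hQ hG d h m0 hm hmh hhd hbig s mm hmm
  have key := hG m0 (triZ d h) ∅ s mm hm (Finset.disjoint_empty_left _) hmm ?_
  · rwa [Finset.empty_union] at key
  intro s' mm' _ _ hmm' hcard
  have hl : 27 * m0 ^ 2 ≤ d + 2 - h := by omega
  refine hQ m0 0 h (fun y => d + 2 - h + y) (triZ d h) ∅ s' mm' hm hmh ?_ ?_ ?_ ?_ ?_
    (Finset.disjoint_empty_left _) hmm' ?_
  · intro y _
    have e : m0 * (d + 2 - h + (y + 1)) = m0 * (d + 2 - h + y) + m0 := by ring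
    show m0 * (d + 2 - h + y) + 3 * m0 ^ 2 ≤ m0 * (d + 2 - h + (y + 1)) + (d + 2 - h + y)
    rw [e]
    nlinarith
  · intro y _ _
    have e : m0 * (d + 2 - h + (y + 1)) = m0 * (d + 2 - h + y) + m0 := by ring
    show m0 * (d + 2 - h + y) + (27 + 0) * m0 ^ 2 ≤ m0 * (d + 2 - h + (y + 1)) + (d + 2 - h + y)
    rw [e]
    nlinarith
  · intro y _ _
    show (d + 2 - h + y) + (d + 2 - h + (y + 2)) ≤ 2 * (d + 2 - h + (y + 1)) + 0
    omega
  · intro x hx
    exact ((mem_triZ d h x).1 hx).2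
  · intro y hy
    rw [row_card d h y hy hhd]
    show d + 1 - y ≤ (d + 2 - h + (h - 1 - y)) + fm mm' ∅ y
    omega
  · rw [tri_card d h hhd]
    rwa [Finset.empty_union] at hcard

end Pool.Agent.Helper9.UW
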